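import Pool.Agent.Helper23_TS.StmtsG
import Pool.Agent.Helper72_UBO.Nsp
import Pool.Agent.Helper27_UBT.CH3
import Pool.Agent.Helper9_UBT.Cheb
import Pool.Agent.Helper51_UBT.Her

/-!
RF2: bounded root field of prime degree, all `r`, all points of degree prime to `g + 1`; the bound
is exponential in the degree.
-/

set_option autoImplicit false

open Polynomial NumberField IsDedekindDomain

namespace Pool.Agent.TS.H39

open _root_.UBT H12UBI

/-- the exponential bound -/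
def pbd (g p : ℕ) : ℕ :=
  4 * (2 * g + 1) * ((g + 1).factorial * (2 * g + 2)) *
      p ^ ((g + 1).factorial * (2 * g + 2) * (3 * g + 1)) +
    4 * (g + 1) * (g + 1).factorial * p ^ ((g + 1).factorial * (g + 1))

theorem aux_pow (a c m p d : ℕ) (ha : 1 ≤ a) (hd : 1 ≤ d) (hc : 1 ≤ c) :
    a * (p ^ (d * c)) ^ m * (2 * (d * c)) ≤ (4 * a * c * p ^ (c * m)) ^ d := by
  have h1 : d ≤ 2 ^ d := Nat.lt_two_pow_self.le
  have h2 : a ≤ a ^ d := Nat.le_self_pow (by omega) a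
  have h3 : c ≤ c ^ d := Nat.le_self_pow (by omega) c
  have h4 : (2 : ℕ) ≤ 2 ^ d := Nat.le_self_pow (by omega) 2
  calc a * (p ^ (d * c)) ^ m * (2 * (d * c)) = (2 * d) * a * c * (p ^ (c * m)) ^ d := by
        rw [← pow_mul, ← pow_mul]
        have : d * c * m = c * m * d := by ring
        rw [this]
        ring
    _ ≤ (2 ^ d * 2 ^ d) * a ^ d * c ^ d * (p ^ (c * m)) ^ d := by gcongr
    _ = (4 * a * c * p ^ (c * m)) ^ d := by
        rw [← mul_pow, ← mul_pow, ← mul_pow, ← mul_pow]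
        norm_num

theorem bg_le (g p d : ℕ) (hd : 1 ≤ d) (hp : 1 ≤ p) : bg g p d ≤ pbd g p ^ d := by
  have hf : 1 ≤ (g + 1).factorial := Nat.factorial_pos _
  have e1 : bd g (d * (g + 1).factorial * (2 * g + 2)) p ≤
      (4 * (2 * g + 1) * ((g + 1).factorial * (2 * g + 2)) *
      p ^ ((g + 1).factorial * (2 * g + 2) * (3 * g + 1))) ^ d := by
    refine le_trans ?_ (aux_pow (2 * g + 1) ((g + 1).factorial * (2 * g + 2)) (3 * g + 1) p d
      (by omega) hd (Nat.mul_pos hf (by omega)))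
    unfold bd
    have h1 : d * (g + 1).factorial * (2 * g + 2) = d * ((g + 1).factorial * (2 * g + 2)) := by
      ring
    rw [h1]
    refine Nat.mul_le_mul_right _ ?_
    have h2 : 1 ≤ (p ^ (d * ((g + 1).factorial * (2 * g + 2)))) ^ (3 * g + 1) :=
      Nat.one_le_pow _ _ (Nat.pow_pos hp)
    nlinarith
  have e2 : bl g p (d * (g + 1).factorial) ≤
      (4 * (g + 1) * (g + 1).factorial * p ^ ((g + 1).factorial * (g + 1))) ^ d :=
    aux_pow (g + 1) (g + 1).factorial (g + 1) p d (by omega) hd hf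
  unfold bg pbd
  refine (Nat.add_le_add e1 e2).trans ?_
  exact pow_add_pow_le (Nat.zero_le _) (Nat.zero_le _) (by omega)

theorem pbd_mono (g : ℕ) {p q : ℕ} (h : p ≤ q) : pbd g p ≤ pbd g q := by
  unfold pbd
  gcongr

/-- the bound for a fixed root field -/
theorem fixedField (gl : GlStmt) (K L : Type) [Field K] [NumberField K]
    [Field L] [NumberField L] [Algebra K L] (g : ℕ) (hn : (g + 1).Prime)
    (hfin : Module.finrank K L = g + 1) :
    ∃ P : ℕ, ∀ (K₁ L₁ : Type) [Field K₁] [NumberField K₁] [Field L₁] [NumberField L₁]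
      [Algebra K K₁] [Algebra K₁ L₁] [Algebra K L₁] [IsScalarTower K K₁ L₁],
      Nonempty (L →ₐ[K] L₁) → ¬ (g + 1) ∣ Module.finrank K K₁ → Module.finrank K₁ L₁ = g + 1 →
      ∀ θ : L₁, θ ∉ (algebraMap K₁ L₁).range → ∀ C : Curve g K₁, C.h = minpoly K₁ θ →
      orderOf C.infty ≤ P ^ Module.finrank ℚ K₁ := by
  have hcheb : _root_.UBT.ChebStmt := _root_.UBT.H9.cheb _root_.UBT.ch3
  obtain ⟨p, hp, -, v, hv, hpv, hns⟩ := hcheb K L (by rw [hfin]; exact hn) 0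
  have hv0 : v ≠ ⊥ := by
    rintro rfl
    rw [Ideal.mem_bot, Nat.cast_eq_zero] at hpv
    exact hp.ne_zero hpv
  refine ⟨pbd g p, ?_⟩
  intro K₁ L₁ _ _ _ _ _ _ _ _ hψ hnd hfin₁ θ hθ C hC
  obtain ⟨ψ⟩ := hψ
  let _ : Algebra L L₁ := ψ.toRingHom.toAlgebra
  have _ : IsScalarTower K L L₁ := IsScalarTower.of_algebraMap_eq fun x => (ψ.commutes x).symm
  obtain ⟨v₁, h4, h5, h6⟩ := H72UBO.nonsplit_descent K L K₁ L₁ (g + 1) hn hfin hnd hfin₁ v hv hv0
    hns
  have hpv₁ : ((p : ℕ) : 𝓞 K₁) ∈ v₁ := by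
    have e1 : ((p : ℕ) : 𝓞 K) ∈ v₁.under (𝓞 K) := by rw [← h5.over]; exact hpv
    have e2 : algebraMap (𝓞 K) (𝓞 K₁) ((p : ℕ) : 𝓞 K) ∈ v₁ := e1
    rwa [map_natCast] at e2
  exact (gl K₁ L₁ g (Module.finrank ℚ K₁) p hn hfin₁ le_rfl hp v₁ h4 hpv₁ h6 θ hθ C hC).trans
    (bg_le g p _ Module.finrank_pos hp.one_lt.le)

theorem rf2 (gl : GlStmt) (K : Type) [Field K] [NumberField K] (g Δ : ℕ) (hn : (g + 1).Prime) :
    ∃ P : ℕ, ∀ (L : Type) [Field L] [NumberField L] [Algebra K L],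
      Module.finrank K L = g + 1 → |NumberField.discr L| ≤ Δ →
      ∀ (K₁ L₁ : Type) [Field K₁] [NumberField K₁] [Field L₁] [NumberField L₁]
      [Algebra K K₁] [Algebra K₁ L₁] [Algebra K L₁] [IsScalarTower K K₁ L₁],
      Nonempty (L →ₐ[K] L₁) → ¬ (g + 1) ∣ Module.finrank K K₁ → Module.finrank K₁ L₁ = g + 1 →
      ∀ θ : L₁, θ ∉ (algebraMap K₁ L₁).range → ∀ C : Curve g K₁, C.h = minpoly K₁ θ →
      orderOf C.infty ≤ P ^ Module.finrank ℚ K₁ := by
  classical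
  obtain ⟨S, hSfin, hS⟩ := Pool.Agent.UBT51.her K Δ
  have hB : ∀ F : IntermediateField K (AlgebraicClosure K), F ∈ S → ∃ P : ℕ,
      Module.finrank K F = g + 1 →
      ∀ (K₁ L₁ : Type) [Field K₁] [NumberField K₁] [Field L₁] [NumberField L₁]
      [Algebra K K₁] [Algebra K₁ L₁] [Algebra K L₁] [IsScalarTower K K₁ L₁],
      Nonempty (F →ₐ[K] L₁) → ¬ (g + 1) ∣ Module.finrank K K₁ → Module.finrank K₁ L₁ = g + 1 →
      ∀ θ : L₁, θ ∉ (algebraMap K₁ L₁).range → ∀ C : Curve g K₁, C.h = minpoly K₁ θ →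
      orderOf C.infty ≤ P ^ Module.finrank ℚ K₁ := by
    intro F hF
    have _ : FiniteDimensional K F := hSfin F hF
    have _ : NumberField F := NumberField.of_module_finite K F
    by_cases hfin : Module.finrank K F = g + 1
    · obtain ⟨P, hP⟩ := fixedField gl K F g hn hfin
      exact ⟨P, fun _ => hP⟩
    · exact ⟨0, fun h => absurd h hfin⟩
  choose P hP using hB
  refine ⟨∑ F ∈ S.attach, P F.1 F.2, ?_⟩
  intro L _ _ _ hfin hdisc K₁ L₁ _ _ _ _ _ _ _ _ hψ hnd hfin₁ θ hθ C hC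
  obtain ⟨F, hF, ⟨φ⟩⟩ := hS L hdisc
  obtain ⟨ψ⟩ := hψ
  have h1 : Module.finrank K F = g + 1 := by
    rw [← hfin]; exact φ.toLinearEquiv.finrank_eq.symm
  refine (hP F hF h1 K₁ L₁ ⟨ψ.comp φ.symm.toAlgHom⟩ hnd hfin₁ θ hθ C hC).trans ?_
  refine Nat.pow_le_pow_left ?_ _
  exact Finset.single_le_sum (f := fun F : {x // x ∈ S} => P F.1 F.2) (fun _ _ => Nat.zero_le _)
    (Finset.mem_attach S ⟨F, hF⟩)

end Pool.Agent.TS.H39
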